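import Mathlib

/-!
# MP_b875bc_co: equal-degree vertices joined by a path of length three

For every `n ≥ 2`, every graph with `2 n + 1` vertices and `n ^ 2 + n + 1` edges has two distinct
vertices of equal degree that are joined by a path of length three.

Proof. Assume not. Let `u` have the largest degree `Δ`, let `A` be its neighbourhood and `m` the
number of the other vertices (so `m + Δ = 2 n + 1`), and put `M = Δ - m ≥ 1` and
`g v = degree v - m` (truncated) for `v ∈ A`. A value `i ≥ 2` of `g` is taken at most once on `A`,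
the value `1` at most twice. The degree sum gives `∑ g ≥ (M ^ 2 + 3) / 2 + def`, where `def` is the
sum of `Δ - degree b` over the vertices `b` outside `A`, so some `v₀ ∈ A` has degree `Δ`. If `v₀`
has a neighbour `b ≠ u` outside `A`, then `v₀` is the only neighbour of `b` in `A`, so `def` is too
large; otherwise `A` induces a star with centre `v₀`, and the sum of `g` is too small.
-/

set_option autoImplicit false

open Finset

namespace Pool.Agent.Results.MP_b875bc_co.AllCases

/-- A sum of natural numbers `≤ M`, in which each value `≥ 2` occurs at most once and the value `1`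
at most twice. -/
lemma sum_bound {V : Type} [DecidableEq V] (A : Finset V) (g : V → ℕ) (M : ℕ)
    (hM : ∀ v ∈ A, g v ≤ M)
    (h2 : ∀ i, 2 ≤ i → (A.filter (fun v => g v = i)).card ≤ 1)
    (h1 : (A.filter (fun v => g v = 1)).card ≤ 2) :
    2 * ∑ v ∈ A, g v ≤ M * (M + 1) + 2 := by
  have hfib : ∑ i ∈ Finset.range (M + 1), ∑ v ∈ A with g v = i, g v = ∑ v ∈ A, g v :=
    Finset.sum_fiberwise_of_maps_to (fun v hv => Finset.mem_range.mpr (Nat.lt_succ_of_le (hM v hv))) g
  have hle : ∀ i ∈ Finset.range (M + 1), ∑ v ∈ A with g v = i, g v ≤ i + (if i = 1 then 1 else 0) := by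
    intro i _
    have hs : ∑ v ∈ A with g v = i, g v = (A.filter (fun v => g v = i)).card * i := by
      rw [Finset.sum_congr rfl (g := fun _ => i) (fun v hv => (Finset.mem_filter.mp hv).2)]
      rw [Finset.sum_const, smul_eq_mul]
    rw [hs]
    rcases Nat.lt_or_ge i 2 with hi | hi
    · interval_cases i
      · simp
      · simpa using h1
    · have := h2 i hi
      have h3 : i ≠ 1 := by omega
      rw [if_neg h3]
      nlinarith
  have h := Finset.sum_le_sum hle
  rw [hfib, Finset.sum_add_distrib] at h
  have hr : (∑ i ∈ Finset.range (M + 1), i) * 2 = (M + 1) * M := by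
    simpa using Finset.sum_range_id_mul_two (M + 1)
  have hone : ∑ i ∈ Finset.range (M + 1), (if i = 1 then 1 else 0) ≤ 1 := by
    rw [Finset.sum_ite_eq' (Finset.range (M + 1)) 1 (fun _ => 1)]
    split_ifs <;> omega
  nlinarith

/-- The statement that no two distinct vertices of equal degree are joined by a path of length
three. -/
lemma core (n : ℕ) (hn : 2 ≤ n) (V : Type) [Fintype V] [DecidableEq V] (G : SimpleGraph V)
    [DecidableRel G.Adj] (hV : Fintype.card V = 2 * n + 1)
    (hE : G.edgeFinset.card = n ^ 2 + n + 1)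
    (H : ∀ x₁ x₂ y₁ y₂ : V, x₁ ≠ x₂ → x₁ ≠ y₂ → y₁ ≠ x₂ → G.Adj x₁ y₁ → G.Adj y₁ y₂ →
      G.Adj y₂ x₂ → G.degree x₁ ≠ G.degree x₂) : False := by
  classical
  have hsum : ∑ v, G.degree v = 2 * (n ^ 2 + n + 1) := by
    rw [G.sum_degrees_eq_twice_card_edges, hE]
  have hne : Nonempty V := by
    rw [← Fintype.card_pos_iff, hV]; omega
  obtain ⟨u, hu⟩ := G.exists_maximal_degree_vertex
  set Δ := G.degree u with hΔ
  have hmax : ∀ v, G.degree v ≤ Δ := fun v => by rw [← hu]; exact G.degree_le_maxDegree v
  have hΔn : n + 1 ≤ Δ := by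
    by_contra hlt
    have h1 : ∑ v, G.degree v ≤ ∑ _v : V, n :=
      Finset.sum_le_sum (fun v _ => by have := hmax v; omega)
    rw [Finset.sum_const, Finset.card_univ, hV, smul_eq_mul, hsum] at h1
    nlinarith
  set A := G.neighborFinset u with hA
  have hAcard : A.card = Δ := G.card_neighborFinset_eq_degree u
  set D := Aᶜ with hD
  have hDA : D.card + Δ = 2 * n + 1 := by
    rw [← hV, ← hAcard]
    have := Finset.card_compl_add_card A
    exact this
  set m := D.card with hm
  have hmemA : ∀ v, v ∈ A ↔ G.Adj u v := fun v => by rw [hA, SimpleGraph.mem_neighborFinset]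
  have hmemD : ∀ v, v ∈ D ↔ ¬ G.Adj u v := fun v => by rw [hD, Finset.mem_compl, hmemA]
  have huD : u ∈ D := by rw [hmemD]; exact G.irrefl
  obtain ⟨M, hMd⟩ : ∃ M, Δ = m + M := ⟨Δ - m, by omega⟩
  have hM1 : 1 ≤ M := by omega
  -- the neighbours of a vertex inside and outside `A`
  have hsplit : ∀ v, G.degree v = ((G.neighborFinset v) ∩ A).card + ((G.neighborFinset v) ∩ D).card := by
    intro v
    rw [← G.card_neighborFinset_eq_degree v, hD, ← Finset.card_inter_add_card_sdiff (G.neighborFinset v) A,
      Finset.sdiff_eq_inter_compl]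
  have hAn : ∀ v, G.degree v ≤ ((G.neighborFinset v) ∩ A).card + m := by
    intro v
    rw [hsplit v]
    exact Nat.add_le_add_left (Finset.card_le_card Finset.inter_subset_right) _
  set g : V → ℕ := fun v => G.degree v - m with hg
  have hgM : ∀ v ∈ A, g v ≤ M := fun v _ => by have := hmax v; simp only [hg]; omega
  -- two vertices of `A` of equal degree
  have key : ∀ v v' x : V, v ∈ A → v' ∈ A → v ≠ v' → x ∈ (G.neighborFinset v) ∩ A → x ≠ v' →
      G.degree v ≠ G.degree v' := by
    intro v v' x hv hv' hne hx hxv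
    rw [Finset.mem_inter, SimpleGraph.mem_neighborFinset, hmemA] at hx
    rw [hmemA] at hv hv'
    exact H v v' x u hne (fun h => G.irrefl (h ▸ hv)) hxv hx.1 hx.2.symm hv'
  have h2 : ∀ i, 2 ≤ i → (A.filter (fun v => g v = i)).card ≤ 1 := by
    intro i hi
    by_contra hc
    rw [not_le, Finset.one_lt_card] at hc
    obtain ⟨v, hv, v', hv', hne⟩ := hc
    rw [Finset.mem_filter] at hv hv'
    have h1 := hAn v
    have hgv : G.degree v - m = i := hv.2
    have hgv' : G.degree v' - m = i := hv'.2
    have h3 : 1 < ((G.neighborFinset v) ∩ A).card := by omega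
    obtain ⟨x, hx, hxv⟩ := Finset.exists_mem_ne h3 v'
    exact key v v' x hv.1 hv'.1 hne hx hxv (by omega)
  have h1 : (A.filter (fun v => g v = 1)).card ≤ 2 := by
    by_contra hc
    rw [not_le, Finset.two_lt_card] at hc
    obtain ⟨v, hv, v', hv', v'', hv'', hne, hne', hne''⟩ := hc
    rw [Finset.mem_filter] at hv hv' hv''
    have h1 := hAn v
    have hgv : G.degree v - m = 1 := hv.2
    have hgv' : G.degree v' - m = 1 := hv'.2
    have hgv'' : G.degree v'' - m = 1 := hv''.2
    have h3 : 0 < ((G.neighborFinset v) ∩ A).card := by omega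
    obtain ⟨x, hx⟩ := Finset.card_pos.mp h3
    by_cases hxv : x = v'
    · exact key v v'' x hv.1 hv''.1 hne' hx (by rw [hxv]; exact hne'') (by omega)
    · exact key v v' x hv.1 hv'.1 hne hx hxv (by omega)
  -- degree sums
  have hsumAD : ∑ v ∈ A, G.degree v + ∑ v ∈ D, G.degree v = 2 * (n ^ 2 + n + 1) := by
    rw [← hsum, hD]
    exact Finset.sum_add_sum_compl A _
  have hsumg : ∑ v ∈ A, G.degree v ≤ ∑ v ∈ A, g v + Δ * m := by
    have : ∑ v ∈ A, G.degree v ≤ ∑ v ∈ A, (g v + m) :=
      Finset.sum_le_sum (fun v _ => by simp only [hg]; omega)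
    rwa [Finset.sum_add_distrib, Finset.sum_const, hAcard, smul_eq_mul] at this
  have hsumD : ∑ v ∈ D, G.degree v ≤ m * Δ := by
    have : ∑ v ∈ D, G.degree v ≤ ∑ _v ∈ D, Δ := Finset.sum_le_sum (fun v _ => hmax v)
    rwa [Finset.sum_const, smul_eq_mul] at this
  -- a vertex of `A` of the largest degree
  obtain ⟨v₀, hv₀A, hv₀⟩ : ∃ v₀ ∈ A, G.degree v₀ = Δ := by
    by_contra hno
    push Not at hno
    have hb := sum_bound A g (M - 1) (fun v hv => by
      have := hmax v; have h3 := hno v hv; simp only [hg]; omega) h2 h1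
    obtain ⟨M', rfl⟩ : ∃ M', M = M' + 1 := ⟨M - 1, by omega⟩
    rw [Nat.add_sub_cancel] at hb
    have hn2 : 2 * n + 1 = 2 * m + M' + 1 := by omega
    have hn3 : 2 * n = 2 * m + M' := by omega
    nlinarith
  have hb := sum_bound A g M hgM h2 h1
  have hv₀u : v₀ ≠ u := fun h => by
    rw [hmemA, h] at hv₀A; exact G.irrefl hv₀A
  by_cases hcase : ∃ b ∈ D, b ≠ u ∧ G.Adj v₀ b
  · -- `v₀` has a neighbour `b ≠ u` outside `A`
    obtain ⟨b, hbD, hbu, hvb⟩ := hcase
    have honly : ∀ w ∈ A, G.Adj b w → w = v₀ := by
      intro w hw hbw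
      by_contra hwv
      rw [hmemA] at hw
      exact H v₀ u b w hv₀u (fun h => hwv h.symm) hbu hvb hbw hw.symm hv₀
    have hbdeg : G.degree b + 1 ≤ m := by
      rw [← G.card_neighborFinset_eq_degree b]
      have hsub : G.neighborFinset b ⊆ insert v₀ ((D.erase u).erase b) := by
        intro w hw
        rw [SimpleGraph.mem_neighborFinset] at hw
        rw [Finset.mem_insert]
        by_cases hwA : w ∈ A
        · exact Or.inl (honly w hwA hw)
        · right
          rw [Finset.mem_erase, Finset.mem_erase]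
          refine ⟨hw.ne', ?_, by rw [hD, Finset.mem_compl]; exact hwA⟩
          rintro rfl
          rw [hmemD] at hbD
          exact hbD hw.symm
      have hc1 := Finset.card_le_card hsub
      have hc2 := Finset.card_insert_le v₀ ((D.erase u).erase b)
      have hc3 : ((D.erase u).erase b).card = m - 1 - 1 := by
        rw [Finset.card_erase_of_mem (Finset.mem_erase.mpr ⟨hbu, hbD⟩), Finset.card_erase_of_mem huD]
      have hc4 : 2 ≤ m := by
        have : ({u, b} : Finset V) ⊆ D := by
          intro w hw
          rw [Finset.mem_insert, Finset.mem_singleton] at hw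
          rcases hw with rfl | rfl
          · exact huD
          · exact hbD
        have h5 := Finset.card_le_card this
        rw [Finset.card_pair (fun h => hbu h.symm)] at h5
        exact h5
      omega
    have hsumD' : ∑ v ∈ D, G.degree v + (M + 1) ≤ m * Δ := by
      rw [← Finset.add_sum_erase D _ hbD]
      have h3 : ∑ v ∈ D.erase b, G.degree v ≤ ∑ _v ∈ D.erase b, Δ :=
        Finset.sum_le_sum (fun v _ => hmax v)
      rw [Finset.sum_const, Finset.card_erase_of_mem hbD, smul_eq_mul] at h3
      obtain ⟨m', hm'⟩ : ∃ m', m = m' + 1 := ⟨m - 1, by omega⟩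
      have h4 : (D.card - 1) * Δ = m' * Δ := by rw [← hm, hm', Nat.add_sub_cancel]
      rw [h4] at h3
      have h5 : m * Δ = m' * Δ + Δ := by rw [hm']; ring
      omega
    have hn3 : 2 * n + 1 = 2 * m + M := by omega
    nlinarith
  · -- `A` induces a star with centre `v₀`
    push Not at hcase
    have hnb : ∀ w ∈ A, w ≠ v₀ → G.Adj v₀ w := by
      have hsub : G.neighborFinset v₀ ⊆ insert u (A.erase v₀) := by
        intro w hw
        rw [SimpleGraph.mem_neighborFinset] at hw
        rw [Finset.mem_insert]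
        by_cases hwu : w = u
        · exact Or.inl hwu
        · right
          rw [Finset.mem_erase]
          refine ⟨hw.ne', ?_⟩
          by_contra hwA
          exact hcase w (by rw [hD, Finset.mem_compl]; exact hwA) hwu hw
      have hcard : (insert u (A.erase v₀)).card ≤ (G.neighborFinset v₀).card := by
        rw [G.card_neighborFinset_eq_degree v₀, hv₀]
        have hc := Finset.card_insert_le u (A.erase v₀)
        rw [Finset.card_erase_of_mem hv₀A, hAcard] at hc
        omega
      have heq := Finset.eq_of_subset_of_card_le hsub hcard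
      intro w hw hwv
      rw [← SimpleGraph.mem_neighborFinset, heq, Finset.mem_insert, Finset.mem_erase]
      exact Or.inr ⟨hwv, hw⟩
    have hleaf : ∀ w ∈ A, w ≠ v₀ → g w ≤ 1 := by
      intro w hw hwv
      have hin : (G.neighborFinset w) ∩ A ⊆ {v₀} := by
        intro x hx
        rw [Finset.mem_inter, SimpleGraph.mem_neighborFinset] at hx
        rw [Finset.mem_singleton]
        by_contra hxv
        have hxu := hx.2
        have hwu := hw
        rw [hmemA] at hxu hwu
        exact H v₀ u x w hv₀u (fun h => hwv h.symm) (fun h => by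
          rw [h] at hxu; exact G.irrefl hxu) (hnb x hx.2 hxv) hx.1.symm hwu.symm hv₀
      have h3 := Finset.card_le_card hin
      rw [Finset.card_singleton] at h3
      have h4 := hAn w
      simp only [hg]
      omega
    have hone : ∀ w ∈ A, ∀ w' ∈ A, w ≠ v₀ → w' ≠ v₀ → w ≠ w' → g w = 1 → g w' = 1 → False := by
      intro w hw w' hw' hwv hwv' hne e1 e2
      simp only [hg] at e1 e2
      refine key w w' v₀ hw hw' hne ?_ (fun h => hwv' h.symm) (by omega)
      rw [Finset.mem_inter, SimpleGraph.mem_neighborFinset]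
      exact ⟨(hnb w hw hwv).symm, hv₀A⟩
    have hMone : M = 1 → ∀ w ∈ A, w ≠ v₀ → g w = 0 := by
      intro hM' w hw hwv
      by_contra h0
      have hle := hleaf w hw hwv
      have hgw : G.degree w - m ≠ 0 := h0
      have hdw : G.degree v₀ = G.degree w := by
        have := hmax w; omega
      have hc : 0 < ((A.erase v₀).erase w).card := by
        rw [Finset.card_erase_of_mem (Finset.mem_erase.mpr ⟨hwv, hw⟩),
          Finset.card_erase_of_mem hv₀A, hAcard]
        omega
      obtain ⟨x, hx⟩ := Finset.card_pos.mp hc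
      rw [Finset.mem_erase, Finset.mem_erase] at hx
      refine key v₀ w x hv₀A hw (fun h => hwv h.symm) ?_ hx.1 hdw
      rw [Finset.mem_inter, SimpleGraph.mem_neighborFinset]
      exact ⟨hnb x hx.2.2 hx.2.1, hx.2.2⟩
    have hrest : ∑ w ∈ A.erase v₀, g w ≤ 1 := by
      by_contra hgt
      push Not at hgt
      have hf : ∑ w ∈ A.erase v₀, g w ≤ ((A.erase v₀).filter (fun w => g w = 1)).card := by
        rw [Finset.card_filter]
        refine Finset.sum_le_sum (fun w hw => ?_)
        rw [Finset.mem_erase] at hw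
        have := hleaf w hw.2 hw.1
        split_ifs <;> omega
      have hlt : 1 < ((A.erase v₀).filter (fun w => g w = 1)).card := lt_of_lt_of_le hgt hf
      rw [Finset.one_lt_card] at hlt
      obtain ⟨w, hw, w', hw', hne⟩ := hlt
      rw [Finset.mem_filter, Finset.mem_erase] at hw hw'
      exact hone w hw.1.2 w' hw'.1.2 hw.1.1 hw'.1.1 hne hw.2 hw'.2
    have hgv₀ : g v₀ = M := by simp only [hg]; omega
    have htot : ∑ v ∈ A, g v = M + ∑ w ∈ A.erase v₀, g w := by
      rw [← Finset.add_sum_erase A _ hv₀A, hgv₀]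
    have hn3 : 2 * n + 1 = 2 * m + M := by omega
    rcases Nat.lt_or_ge 1 M with hM2 | hM2
    · nlinarith
    · have hMe : M = 1 := by omega
      have hz : ∑ w ∈ A.erase v₀, g w = 0 := by
        refine Finset.sum_eq_zero (fun w hw => ?_)
        rw [Finset.mem_erase] at hw
        exact hMone hMe w hw.2 hw.1
      rw [hz] at htot
      nlinarith

/-- **Erdős problem on equal-degree vertices joined by a path of length three.** For every `n ≥ 2`,
every graph with `2 n + 1` vertices and `n ^ 2 + n + 1` edges contains two distinct vertices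
`x₁, x₂` of equal degree joined by a path `x₁, y₁, y₂, x₂` with four pairwise distinct vertices. -/
theorem result :
    ∀ n : ℕ, 2 ≤ n → ∀ (V : Type) [Fintype V] [DecidableEq V] (G : SimpleGraph V)
      [DecidableRel G.Adj], Fintype.card V = 2 * n + 1 → G.edgeFinset.card = n ^ 2 + n + 1 →
      ∃ x₁ x₂ y₁ y₂ : V, G.degree x₁ = G.degree x₂ ∧ [x₁, y₁, y₂, x₂].Nodup ∧
        G.Adj x₁ y₁ ∧ G.Adj y₁ y₂ ∧ G.Adj y₂ x₂ := by
  intro n hn V _ _ G _ hV hE
  by_contra hno
  refine core n hn V G hV hE ?_
  intro x₁ x₂ y₁ y₂ h12 h1y h2y a1 a2 a3 hdeg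
  refine hno ⟨x₁, x₂, y₁, y₂, hdeg, ?_, a1, a2, a3⟩
  simp only [List.nodup_cons, List.mem_cons, List.not_mem_nil, or_false, not_or,
    not_false_eq_true, List.nodup_nil, and_true]
  exact ⟨⟨a1.ne, h1y, h12⟩, ⟨a2.ne, h2y⟩, a3.ne⟩

end Pool.Agent.Results.MP_b875bc_co.AllCases
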